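import Mathlib

/-!
# MP_32269d_co: the first-order term `3/2` is not forced for infinite interval splitting
strategies (helper278)

A partition of `[0,1]` into finitely many intervals of positive length is given by its finite set
`P` of division points, with `0, 1 ∈ P ⊆ [0,1]`; its intervals are the pairs of consecutive
elements of `P`. Cutting one interval into two is inserting one new point.
-/

namespace Pool.Agent.Results.MP_32269d_co.SparseTimes

open Finset

/-- `a < b` are consecutive division points: `[a,b]` is an interval of the partition `P`. -/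
def Consec (P : Finset ℝ) (a b : ℝ) : Prop :=
  a ∈ P ∧ b ∈ P ∧ a < b ∧ ∀ c ∈ P, c ≤ a ∨ b ≤ c

/-- The discrepancy: the largest ratio of the lengths of two intervals of the partition. -/
noncomputable def disc (P : Finset ℝ) : ℝ :=
  sSup {r | ∃ a b c d, Consec P a b ∧ Consec P c d ∧ r = (b - a) / (d - c)}

/-- Infinite-length strategies: `S i` is a partition of `[0,1]` into `i` intervals
(`i + 1` division points, among them `0` and `1`), and `S (i+1)` arises from `S i` by cutting one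
interval into two, i.e. by inserting one new division point in `(0,1)`. -/
structure IsStrategy (S : ℕ → Finset ℝ) : Prop where
  zero_mem : ∀ i, 1 ≤ i → (0 : ℝ) ∈ S i
  one_mem : ∀ i, 1 ≤ i → (1 : ℝ) ∈ S i
  subset : ∀ i, 1 ≤ i → ∀ x ∈ S i, 0 ≤ x ∧ x ≤ 1
  card : ∀ i, 1 ≤ i → (S i).card = i + 1
  step : ∀ i, 1 ≤ i → ∃ c, 0 < c ∧ c < 1 ∧ c ∉ S i ∧ S (i + 1) = insert c (S i)

/-- `disc_n(S)`: the maximum of `disc (S t)` over `1 ≤ t ≤ n`. -/
noncomputable def discUpTo (S : ℕ → Finset ℝ) (n : ℕ) : ℝ :=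
  sSup {r | ∃ t, 1 ≤ t ∧ t ≤ n ∧ r = disc (S t)}

/-! ### The suprema above are maxima -/

lemma ratios_finite (P : Finset ℝ) :
    {r | ∃ a b c d, Consec P a b ∧ Consec P c d ∧ r = (b - a) / (d - c)}.Finite := by
  have h : Set.Finite ((fun q : (ℝ × ℝ) × (ℝ × ℝ) => (q.1.2 - q.1.1) / (q.2.2 - q.2.1)) ''
      (((P : Set ℝ) ×ˢ (P : Set ℝ)) ×ˢ ((P : Set ℝ) ×ˢ (P : Set ℝ)))) :=
    Set.Finite.image _ (((P.finite_toSet).prod P.finite_toSet).prod
      ((P.finite_toSet).prod P.finite_toSet))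
  refine h.subset ?_
  rintro r ⟨a, b, c, d, h1, h2, rfl⟩
  exact ⟨((a, b), (c, d)), ⟨⟨h1.1, h1.2.1⟩, ⟨h2.1, h2.2.1⟩⟩, rfl⟩

/-- For a partition of `[0,1]`, `disc P` is the maximum of the ratios of two lengths. -/
theorem disc_isGreatest (P : Finset ℝ) (h0 : (0 : ℝ) ∈ P) (h1 : (1 : ℝ) ∈ P) :
    IsGreatest {r | ∃ a b c d, Consec P a b ∧ Consec P c d ∧ r = (b - a) / (d - c)} (disc P) := by
  have hfin := ratios_finite P
  refine ⟨Set.Nonempty.csSup_mem ?_ hfin, fun r hr => le_csSup hfin.bddAbove hr⟩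
  have hne : (P.filter (fun x => 0 < x)).Nonempty := ⟨1, by simp [h1]⟩
  have hmem := Finset.min'_mem _ hne
  rw [Finset.mem_filter] at hmem
  have hc : Consec P 0 ((P.filter (fun x => 0 < x)).min' hne) := by
    refine ⟨h0, hmem.1, hmem.2, ?_⟩
    intro c hc
    rcases le_or_gt c 0 with h | h
    · exact Or.inl h
    · exact Or.inr (Finset.min'_le _ _ (by simp [hc, h]))
  exact ⟨_, _, _, _, _, hc, hc, rfl⟩

/-- `discUpTo S n` is the maximum of `disc (S t)`, `1 ≤ t ≤ n`. -/
theorem discUpTo_isGreatest (S : ℕ → Finset ℝ) (n : ℕ) (hn : 1 ≤ n) :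
    IsGreatest {r | ∃ t, 1 ≤ t ∧ t ≤ n ∧ r = disc (S t)} (discUpTo S n) := by
  have hfin : {r | ∃ t, 1 ≤ t ∧ t ≤ n ∧ r = disc (S t)}.Finite := by
    refine ((Finset.Icc 1 n).finite_toSet.image (fun t => disc (S t))).subset ?_
    rintro r ⟨t, h1, h2, rfl⟩
    exact ⟨t, by simp [h1, h2], rfl⟩
  exact ⟨Set.Nonempty.csSup_mem ⟨_, 1, le_rfl, hn, rfl⟩ hfin,
    fun r hr => le_csSup hfin.bddAbove hr⟩

/-! ### The lengths -/

/-- The length of the `k`-th interval of the binary tree of intervals. -/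
noncomputable def ell (k : ℕ) : ℝ :=
  if k ≤ 1 then 1
  else if 2 * k < 3 * 2 ^ Nat.log 2 k then
    4 * (16 * 2 ^ Nat.log 2 k - 6 * k - 3) / (29 * (2 ^ Nat.log 2 k) ^ 2)
  else 4 * (13 * 2 ^ Nat.log 2 k - 4 * k - 2) / (29 * (2 ^ Nat.log 2 k) ^ 2)

lemma ell_A (i k : ℕ) (h1 : 2 * 2 ^ i ≤ k) (h2 : k < 3 * 2 ^ i) :
    ell k = (32 * 2 ^ i - 6 * k - 3) / (29 * (2 ^ i) ^ 2) := by
  have hp : 1 ≤ 2 ^ i := Nat.one_le_two_pow
  have hlog : Nat.log 2 k = i + 1 := by
    rw [Nat.log_eq_iff (Or.inl (by omega))]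
    constructor
    · rw [pow_succ]; omega
    · rw [pow_succ, pow_succ]; omega
  unfold ell
  rw [if_neg (by omega), if_pos (by rw [hlog, pow_succ]; omega), hlog, pow_succ]
  have : ((2 : ℝ) ^ i) ≠ 0 := by positivity
  field_simp
  ring

lemma ell_B (i k : ℕ) (h1 : 3 * 2 ^ i ≤ k) (h2 : k < 4 * 2 ^ i) :
    ell k = (26 * 2 ^ i - 4 * k - 2) / (29 * (2 ^ i) ^ 2) := by
  have hp : 1 ≤ 2 ^ i := Nat.one_le_two_pow
  have hlog : Nat.log 2 k = i + 1 := by
    rw [Nat.log_eq_iff (Or.inl (by omega))]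
    constructor
    · rw [pow_succ]; omega
    · rw [pow_succ, pow_succ]; omega
  unfold ell
  rw [if_neg (by omega), if_neg (by rw [hlog, pow_succ]; omega), hlog, pow_succ]
  have : ((2 : ℝ) ^ i) ≠ 0 := by positivity
  field_simp
  ring

lemma blocks (k : ℕ) (hk : 2 ≤ k) :
    ∃ i, (2 * 2 ^ i ≤ k ∧ k < 3 * 2 ^ i) ∨ (3 * 2 ^ i ≤ k ∧ k < 4 * 2 ^ i) := by
  have hl : 1 ≤ Nat.log 2 k := Nat.log_pos (by norm_num) hk
  obtain ⟨i, hi⟩ : ∃ i, Nat.log 2 k = i + 1 := ⟨Nat.log 2 k - 1, by omega⟩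
  have h1 := Nat.pow_log_le_self 2 (x := k) (by omega)
  have h2 := Nat.lt_pow_succ_log_self (b := 2) (by norm_num) k
  rw [hi] at h1 h2
  rw [pow_succ] at h1
  rw [Nat.succ_eq_add_one, pow_succ, pow_succ] at h2
  refine ⟨i, ?_⟩
  omega

lemma ell_one : ell 1 = 1 := by simp [ell]

lemma ell_two : ell 2 = 17 / 29 := by
  rw [ell_A 0 2 (by norm_num) (by norm_num)]; norm_num

lemma ell_three : ell 3 = 12 / 29 := by
  rw [ell_B 0 3 (by norm_num) (by norm_num)]; norm_num

lemma ell_add (k : ℕ) (hk : 1 ≤ k) : ell (2 * k) + ell (2 * k + 1) = ell k := by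
  rcases Nat.lt_or_ge k 2 with h | h
  · obtain rfl : k = 1 := by omega
    rw [show 2 * 1 = 2 from rfl, show 2 + 1 = 3 from rfl, ell_two, ell_three, ell_one]
    norm_num
  · obtain ⟨i, ⟨h1, h2⟩ | ⟨h1, h2⟩⟩ := blocks k h
    · rw [ell_A (i + 1) (2 * k) (by rw [pow_succ]; omega) (by rw [pow_succ]; omega),
        ell_A (i + 1) (2 * k + 1) (by rw [pow_succ]; omega) (by rw [pow_succ]; omega),
        ell_A i k h1 h2]
      have : ((2 : ℝ) ^ i) ≠ 0 := by positivity
      rw [pow_succ]
      push_cast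
      field_simp
      ring
    · rw [ell_B (i + 1) (2 * k) (by rw [pow_succ]; omega) (by rw [pow_succ]; omega),
        ell_B (i + 1) (2 * k + 1) (by rw [pow_succ]; omega) (by rw [pow_succ]; omega),
        ell_B i k h1 h2]
      have : ((2 : ℝ) ^ i) ≠ 0 := by positivity
      rw [pow_succ]
      push_cast
      field_simp
      ring

lemma ell_pos (k : ℕ) : 0 < ell k := by
  rcases Nat.lt_or_ge k 2 with h | h
  · unfold ell; rw [if_pos (by omega)]; norm_num
  · obtain ⟨i, ⟨h1, h2⟩ | ⟨h1, h2⟩⟩ := blocks k h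
    · rw [ell_A i k h1 h2]
      have h2' : (k : ℝ) + 1 ≤ 3 * 2 ^ i := by exact_mod_cast h2
      have : (0 : ℝ) < 2 ^ i := by positivity
      apply div_pos _ (by positivity)
      linarith
    · rw [ell_B i k h1 h2]
      have h2' : (k : ℝ) + 1 ≤ 4 * 2 ^ i := by exact_mod_cast h2
      have : (0 : ℝ) < 2 ^ i := by positivity
      apply div_pos _ (by positivity)
      linarith

lemma ell_succ_lt (k : ℕ) (hk : 1 ≤ k) : ell (k + 1) < ell k := by
  rcases Nat.lt_or_ge k 2 with h | h
  · obtain rfl : k = 1 := by omega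
    rw [show 1 + 1 = 2 from rfl, ell_two, ell_one]
    norm_num
  · obtain ⟨i, ⟨h1, h2⟩ | ⟨h1, h2⟩⟩ := blocks k h
    · have hp : (1 : ℝ) ≤ 2 ^ i := one_le_pow₀ (by norm_num)
      rcases Nat.lt_or_ge (k + 1) (3 * 2 ^ i) with h3 | h3
      · rw [ell_A i k h1 h2, ell_A i (k + 1) (by omega) h3]
        apply div_lt_div_of_pos_right _ (by positivity)
        push_cast
        linarith
      · have hk3 : k + 1 = 3 * 2 ^ i := by omega
        rw [ell_A i k h1 h2, ell_B i (k + 1) h3 (by omega)]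
        have hk3' : (k : ℝ) + 1 = 3 * 2 ^ i := by exact_mod_cast hk3
        apply div_lt_div_of_pos_right _ (by positivity)
        push_cast
        linarith
    · have hp : (1 : ℝ) ≤ 2 ^ i := one_le_pow₀ (by norm_num)
      rcases Nat.lt_or_ge (k + 1) (4 * 2 ^ i) with h3 | h3
      · rw [ell_B i k h1 h2, ell_B i (k + 1) (by omega) h3]
        apply div_lt_div_of_pos_right _ (by positivity)
        push_cast
        linarith
      · have hk3 : k + 1 = 4 * 2 ^ i := by omega
        have hp' : 1 ≤ 2 ^ i := Nat.one_le_two_pow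
        rw [ell_B i k h1 h2, ell_A (i + 1) (k + 1) (by rw [pow_succ]; omega)
          (by rw [pow_succ]; omega)]
        have hk3' : (k : ℝ) = 4 * 2 ^ i - 1 := by
          have : (k : ℝ) + 1 = 4 * 2 ^ i := by exact_mod_cast hk3
          linarith
        rw [div_lt_div_iff₀ (by positivity) (by positivity)]
        push_cast
        rw [hk3', pow_succ]
        nlinarith [mul_pos (show (0:ℝ) < 2 ^ i by positivity) (show (0:ℝ) < 2 ^ i by positivity)]

lemma ell_anti {a b : ℕ} (ha : 1 ≤ a) (hab : a ≤ b) : ell b ≤ ell a := by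
  induction b, hab using Nat.le_induction with
  | base => exact le_rfl
  | succ n hn ih => exact (ell_succ_lt n (by omega)).le.trans ih

lemma ell_strictAnti {a b : ℕ} (ha : 1 ≤ a) (hab : a < b) : ell b < ell a :=
  (ell_anti (by omega : 1 ≤ a + 1) hab).trans_lt (ell_succ_lt a ha)

/-- The ratio at time `t` in the block of `2 ^ i`. -/
lemma ratio (i t : ℕ) (h1 : 2 * 2 ^ i ≤ t) (h2 : t < 4 * 2 ^ i) :
    ell t ≤ (2 - 3 / (7 * 2 ^ i)) * ell (2 * t - 1) := by
  have hp : (1 : ℝ) ≤ 2 ^ i := one_le_pow₀ (by norm_num)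
  have hp' : 1 ≤ 2 ^ i := Nat.one_le_two_pow
  have h0 : (0 : ℝ) < 2 ^ i := by positivity
  have hcast : ((2 * t - 1 : ℕ) : ℝ) = 2 * t - 1 := by
    rw [Nat.cast_sub (by omega)]; push_cast; ring
  have key : ∀ x y : ℝ, x * (7 * 2 ^ i) ≤ (14 * 2 ^ i - 3) * y →
      x ≤ (2 - 3 / (7 * 2 ^ i)) * y := by
    intro x y h
    have h7 : (0 : ℝ) < 7 * 2 ^ i := by positivity
    have e : (2 - 3 / (7 * 2 ^ i)) * y = ((14 * 2 ^ i - 3) * y) / (7 * 2 ^ i) := by
      field_simp
      ring
    rw [e, le_div_iff₀ h7]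
    exact h
  apply key
  have hpow : ((2 : ℝ) ^ (i + 1)) = 2 ^ i * 2 := pow_succ _ _
  rcases Nat.lt_or_ge t (3 * 2 ^ i) with h3 | h3
  · rcases Nat.eq_or_lt_of_le h1 with h4 | h4
    · have ht : (t : ℝ) = 2 * 2 ^ i := by exact_mod_cast h4.symm
      rw [ell_A i t h1 h3, ell_B i (2 * t - 1) (by omega) (by omega), hcast, ht,
        div_mul_eq_mul_div, mul_div_assoc', div_le_div_iff_of_pos_right (by positivity)]
      nlinarith
    · have ht : 2 * 2 ^ i + 1 ≤ (t : ℝ) := by exact_mod_cast h4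
      rw [ell_A i t h1 h3, ell_A (i + 1) (2 * t - 1) (by rw [pow_succ]; omega)
        (by rw [pow_succ]; omega), hcast, div_mul_eq_mul_div, mul_div_assoc',
        div_le_div_iff₀ (by positivity) (by positivity), hpow]
      generalize (2 : ℝ) ^ i = N at *
      have h6 : 0 ≤ (14 * N - 3) * (32 * (N * 2) - 6 * (2 * t - 1) - 3) -
          4 * ((32 * N - 6 * t - 3) * (7 * N)) := by nlinarith
      have h7 : 0 ≤ 29 * N ^ 2 := by positivity
      nlinarith [mul_nonneg h6 h7]
  · rcases Nat.eq_or_lt_of_le h3 with h4 | h4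
    · have ht : (t : ℝ) = 3 * 2 ^ i := by exact_mod_cast h4.symm
      rw [ell_B i t h3 h2, ell_A (i + 1) (2 * t - 1) (by rw [pow_succ]; omega)
        (by rw [pow_succ]; omega), hcast, ht, div_mul_eq_mul_div, mul_div_assoc',
        div_le_div_iff₀ (by positivity) (by positivity), hpow]
      generalize (2 : ℝ) ^ i = N at *
      have h6 : 0 ≤ (14 * N - 3) * (32 * (N * 2) - 6 * (2 * (3 * N) - 1) - 3) -
          4 * ((26 * N - 4 * (3 * N) - 2) * (7 * N)) := by nlinarith
      have h7 : 0 ≤ 29 * N ^ 2 := by positivity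
      nlinarith [mul_nonneg h6 h7]
    · have ht : 3 * 2 ^ i + 1 ≤ (t : ℝ) := by exact_mod_cast h4
      rw [ell_B i t h3 h2, ell_B (i + 1) (2 * t - 1) (by rw [pow_succ]; omega)
        (by rw [pow_succ]; omega), hcast, div_mul_eq_mul_div, mul_div_assoc',
        div_le_div_iff₀ (by positivity) (by positivity), hpow]
      generalize (2 : ℝ) ^ i = N at *
      have h6 : 0 ≤ (14 * N - 3) * (26 * (N * 2) - 4 * (2 * t - 1) - 2) -
          4 * ((26 * N - 4 * t - 2) * (7 * N)) := by nlinarith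
      have h7 : 0 ≤ 29 * N ^ 2 := by positivity
      nlinarith [mul_nonneg h6 h7]

/-! ### The strategy -/

/-- left endpoint of the `k`-th interval of the binary tree -/
noncomputable def pos : ℕ → ℝ
  | 0 => 0
  | 1 => 0
  | (k + 2) => pos ((k + 2) / 2) + if (k + 2) % 2 = 0 then 0 else ell (k + 1)
decreasing_by omega

lemma pos_one : pos 1 = 0 := by rw [pos]

lemma pos_even (k : ℕ) (hk : 1 ≤ k) : pos (2 * k) = pos k := by
  obtain ⟨m, rfl⟩ : ∃ m, k = m + 1 := ⟨k - 1, by omega⟩
  rw [show 2 * (m + 1) = 2 * m + 2 by ring, pos]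
  rw [show (2 * m + 2) / 2 = m + 1 by omega, if_pos (by omega)]
  simp

lemma pos_odd (k : ℕ) (hk : 1 ≤ k) : pos (2 * k + 1) = pos k + ell (2 * k) := by
  obtain ⟨m, rfl⟩ : ∃ m, k = m + 1 := ⟨k - 1, by omega⟩
  rw [show 2 * (m + 1) + 1 = (2 * m + 1) + 2 by ring, pos]
  rw [show (2 * m + 1 + 2) / 2 = m + 1 by omega, if_neg (by omega)]
  rfl

/-- the cut point inside the `k`-th interval -/
noncomputable def cut (k : ℕ) : ℝ := pos k + ell (2 * k)

/-- the strategy -/
noncomputable def S (n : ℕ) : Finset ℝ := insert 0 (insert 1 ((Finset.Ico 1 n).image cut))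

lemma S_one : S 1 = {0, 1} := by simp [S]

lemma S_succ (n : ℕ) (hn : 1 ≤ n) : S (n + 1) = insert (cut n) (S n) := by
  ext x
  simp only [S, Finset.mem_insert, Finset.mem_image, Finset.mem_Ico]
  constructor
  · rintro (h | h | ⟨k, hk, rfl⟩)
    · exact Or.inr (Or.inl h)
    · exact Or.inr (Or.inr (Or.inl h))
    · rcases Nat.lt_or_ge k n with h | h
      · exact Or.inr (Or.inr (Or.inr ⟨k, ⟨hk.1, h⟩, rfl⟩))
      · left
        rw [show k = n by omega]
  · rintro (h | h | h | ⟨k, hk, rfl⟩)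
    · exact Or.inr (Or.inr ⟨n, ⟨hn, by omega⟩, h.symm⟩)
    · exact Or.inl h
    · exact Or.inr (Or.inl h)
    · exact Or.inr (Or.inr ⟨k, ⟨hk.1, by omega⟩, rfl⟩)

lemma consec_insert {P : Finset ℝ} {a₀ b₀ c : ℝ} (h : Consec P a₀ b₀) (h1 : a₀ < c) (h2 : c < b₀)
    (a b : ℝ) : Consec (insert c P) a b ↔
      (Consec P a b ∧ ¬ (a = a₀ ∧ b = b₀)) ∨ (a = a₀ ∧ b = c) ∨ (a = c ∧ b = b₀) := by
  obtain ⟨ha, hb, hab, hall⟩ := h
  constructor
  · rintro ⟨g1, g2, g3, g4⟩
    simp only [Finset.mem_insert] at g1 g2 g4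
    rcases g1 with rfl | g1
    · -- a = c
      right; right
      refine ⟨rfl, ?_⟩
      rcases g2 with rfl | g2
      · exact absurd g3 (lt_irrefl _)
      · rcases g4 b₀ (Or.inr hb) with h | h
        · linarith
        · rcases hall b g2 with h' | h'
          · linarith
          · linarith
    · rcases g2 with rfl | g2
      · right; left
        refine ⟨?_, rfl⟩
        rcases g4 a₀ (Or.inr ha) with h | h
        · rcases hall a g1 with h' | h'
          · linarith
          · linarith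
        · linarith
      · left
        refine ⟨⟨g1, g2, g3, fun d hd => g4 d (Or.inr hd)⟩, ?_⟩
        rintro ⟨rfl, rfl⟩
        rcases g4 c (Or.inl rfl) with h | h <;> linarith
  · rintro (⟨⟨g1, g2, g3, g4⟩, g5⟩ | ⟨rfl, rfl⟩ | ⟨rfl, rfl⟩)
    · refine ⟨Finset.mem_insert_of_mem g1, Finset.mem_insert_of_mem g2, g3, ?_⟩
      intro d hd
      simp only [Finset.mem_insert] at hd
      rcases hd with rfl | hd
      · by_contra hcon
        push Not at hcon
        -- `a < c < b` and both consecutive in `P`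
        apply g5
        constructor
        · rcases hall a g1 with h | h
          · rcases g4 a₀ ha with h' | h'
            · linarith
            · linarith
          · linarith
        · rcases hall b g2 with h | h
          · linarith
          · rcases g4 b₀ hb with h' | h'
            · linarith
            · linarith
      · exact g4 d hd
    · refine ⟨Finset.mem_insert_of_mem ha, Finset.mem_insert_self _ _, h1, ?_⟩
      intro d hd
      simp only [Finset.mem_insert] at hd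
      rcases hd with rfl | hd
      · right; exact le_rfl
      · rcases hall d hd with h | h
        · left; exact h
        · right; linarith
    · refine ⟨Finset.mem_insert_self _ _, Finset.mem_insert_of_mem hb, h2, ?_⟩
      intro d hd
      simp only [Finset.mem_insert] at hd
      rcases hd with rfl | hd
      · left; exact le_rfl
      · rcases hall d hd with h | h
        · left; linarith
        · right; exact h

/-- The intervals of the `n`-th partition are the intervals `n, ..., 2n-1` of the tree. -/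
lemma consec_S (n : ℕ) (hn : 1 ≤ n) (a b : ℝ) : Consec (S n) a b ↔
    ∃ k, n ≤ k ∧ k < 2 * n ∧ a = pos k ∧ b = pos k + ell k := by
  induction n, hn using Nat.le_induction generalizing a b with
  | base =>
    rw [S_one]
    unfold Consec
    simp only [Finset.mem_insert, Finset.mem_singleton]
    constructor
    · rintro ⟨h1, h2, h3, h4⟩
      refine ⟨1, le_rfl, by norm_num, ?_⟩
      rw [pos_one, ell_one]
      rcases h1 with rfl | rfl <;> rcases h2 with rfl | rfl
      · exact absurd h3 (lt_irrefl _)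
      · simp
      · norm_num at h3
      · exact absurd h3 (lt_irrefl _)
    · rintro ⟨k, h1, h2, rfl, rfl⟩
      obtain rfl : k = 1 := by omega
      rw [pos_one, ell_one]
      refine ⟨Or.inl rfl, Or.inr (by norm_num), by norm_num, ?_⟩
      rintro c (rfl | rfl)
      · left; exact le_rfl
      · right; norm_num
  | succ n hn ih =>
    have h0 : Consec (S n) (pos n) (pos n + ell n) :=
      (ih _ _).2 ⟨n, le_rfl, by omega, rfl, rfl⟩
    have hadd := ell_add n hn
    have hp1 := ell_pos (2 * n)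
    have hp2 := ell_pos (2 * n + 1)
    have h1 : pos n < cut n := by unfold cut; linarith
    have h2 : cut n < pos n + ell n := by unfold cut; linarith
    rw [S_succ n hn, consec_insert h0 h1 h2, ih]
    constructor
    · rintro (⟨⟨k, g1, g2, rfl, rfl⟩, g3⟩ | ⟨rfl, rfl⟩ | ⟨rfl, rfl⟩)
      · refine ⟨k, ?_, by omega, rfl, rfl⟩
        rcases Nat.eq_or_lt_of_le g1 with h | h
        · subst h
          exact absurd ⟨rfl, rfl⟩ g3
        · exact h
      · refine ⟨2 * n, by omega, by omega, (pos_even n hn).symm, ?_⟩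
        rw [pos_even n hn]; rfl
      · refine ⟨2 * n + 1, by omega, by omega, ?_, ?_⟩
        · rw [pos_odd n hn]; rfl
        · rw [pos_odd n hn]; linarith
    · rintro ⟨k, g1, g2, rfl, rfl⟩
      rcases Nat.lt_or_ge k (2 * n) with h | h
      · left
        refine ⟨⟨k, by omega, h, rfl, rfl⟩, ?_⟩
        rintro ⟨e1, e2⟩
        have : ell k = ell n := by
          rw [e1] at e2; linarith
        have h3 := ell_strictAnti hn (by omega : n < k)
        linarith
      · rcases Nat.eq_or_lt_of_le h with h | h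
        · subst h
          right; left
          refine ⟨pos_even n hn, ?_⟩
          rw [pos_even n hn]; rfl
        · obtain rfl : k = 2 * n + 1 := by omega
          right; right
          refine ⟨?_, ?_⟩
          · rw [pos_odd n hn]; rfl
          · rw [pos_odd n hn]; linarith

lemma S_range (n : ℕ) (hn : 1 ≤ n) : ∀ x ∈ S n, 0 ≤ x ∧ x ≤ 1 := by
  induction n, hn using Nat.le_induction with
  | base =>
    rw [S_one]
    intro x hx
    simp only [Finset.mem_insert, Finset.mem_singleton] at hx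
    rcases hx with rfl | rfl <;> norm_num
  | succ n hn ih =>
    rw [S_succ n hn]
    intro x hx
    simp only [Finset.mem_insert] at hx
    rcases hx with rfl | hx
    · have h0 : Consec (S n) (pos n) (pos n + ell n) :=
        (consec_S n hn _ _).2 ⟨n, le_rfl, by omega, rfl, rfl⟩
      have hadd := ell_add n hn
      have hp1 := ell_pos (2 * n)
      have hp2 := ell_pos (2 * n + 1)
      have h3 := ih _ h0.1
      have h4 := ih _ h0.2.1
      unfold cut
      constructor <;> linarith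
    · exact ih x hx

lemma cut_notMem (n : ℕ) (hn : 1 ≤ n) : cut n ∉ S n ∧ 0 < cut n ∧ cut n < 1 := by
  have h0 : Consec (S n) (pos n) (pos n + ell n) :=
    (consec_S n hn _ _).2 ⟨n, le_rfl, by omega, rfl, rfl⟩
  have hadd := ell_add n hn
  have hp1 := ell_pos (2 * n)
  have hp2 := ell_pos (2 * n + 1)
  have h1 : pos n < cut n := by unfold cut; linarith
  have h2 : cut n < pos n + ell n := by unfold cut; linarith
  refine ⟨?_, ?_, ?_⟩
  · intro h
    rcases h0.2.2.2 _ h with h' | h' <;> linarith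
  · exact (S_range n hn _ h0.1).1.trans_lt h1
  · exact h2.trans_le (S_range n hn _ h0.2.1).2

lemma S_card (n : ℕ) (hn : 1 ≤ n) : (S n).card = n + 1 := by
  induction n, hn using Nat.le_induction with
  | base => rw [S_one, Finset.card_pair (by norm_num)]
  | succ n hn ih =>
    rw [S_succ n hn, Finset.card_insert_of_notMem (cut_notMem n hn).1, ih]

theorem S_strategy : IsStrategy S where
  zero_mem i _ := by simp [S]
  one_mem i _ := by simp [S]
  subset i hi := S_range i hi
  card i hi := S_card i hi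
  step i hi := ⟨cut i, (cut_notMem i hi).2.1, (cut_notMem i hi).2.2, (cut_notMem i hi).1,
    S_succ i hi⟩

/-- bound for the discrepancy of a partition of the strategy -/
lemma disc_le (n : ℕ) (hn : 1 ≤ n) (c : ℝ) (h : ell n ≤ c * ell (2 * n - 1)) :
    disc (S n) ≤ c := by
  have hc : 0 ≤ c := by
    by_contra hcon
    push Not at hcon
    have := mul_neg_of_neg_of_pos hcon (ell_pos (2 * n - 1))
    have := ell_pos n
    linarith
  apply csSup_le
  · have h0 : Consec (S n) (pos n) (pos n + ell n) :=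
      (consec_S n hn _ _).2 ⟨n, le_rfl, by omega, rfl, rfl⟩
    exact ⟨_, _, _, _, _, h0, h0, rfl⟩
  · rintro r ⟨a, b, a', b', h1, h2, rfl⟩
    obtain ⟨k, k1, k2, rfl, rfl⟩ := (consec_S n hn _ _).1 h1
    obtain ⟨m, m1, m2, rfl, rfl⟩ := (consec_S n hn _ _).1 h2
    rw [add_sub_cancel_left, add_sub_cancel_left, div_le_iff₀ (ell_pos m)]
    calc ell k ≤ ell n := ell_anti hn k1
      _ ≤ c * ell (2 * n - 1) := h
      _ ≤ c * ell m := mul_le_mul_of_nonneg_left (ell_anti (by omega) (by omega)) hc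

lemma disc_block (i t : ℕ) (h1 : 2 * 2 ^ i ≤ t) (h2 : t < 4 * 2 ^ i) :
    disc (S t) ≤ 2 - 3 / (7 * 2 ^ i) := by
  have hp : 1 ≤ 2 ^ i := Nat.one_le_two_pow
  exact disc_le t (by omega) _ (ratio i t h1 h2)

lemma discUpTo_le (j : ℕ) : discUpTo S (4 * 2 ^ j - 1) ≤ 2 - 3 / (7 * 2 ^ j) := by
  have hpj : 1 ≤ 2 ^ j := Nat.one_le_two_pow
  apply csSup_le
  · exact ⟨_, 1, le_rfl, by omega, rfl⟩
  · rintro r ⟨t, h1, h2, rfl⟩
    rcases Nat.lt_or_ge t 2 with h | h
    · obtain rfl : t = 1 := by omega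
      apply disc_le 1 le_rfl
      rw [show 2 * 1 - 1 = 1 from rfl, ell_one, mul_one]
      have : (1 : ℝ) ≤ 2 ^ j := one_le_pow₀ (by norm_num)
      have h3 : 3 / (7 * 2 ^ j) ≤ (1 : ℝ) := by
        rw [div_le_one (by positivity)]
        linarith
      linarith
    · obtain ⟨i, hi⟩ := blocks t h
      have hi1 : 2 * 2 ^ i ≤ t := by
        rcases hi with hi | hi <;> omega
      have hi2 : t < 4 * 2 ^ i := by
        rcases hi with hi | hi <;> omega
      refine (disc_block i t hi1 hi2).trans ?_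
      have hij : i ≤ j := by
        by_contra hcon
        push Not at hcon
        have : 2 ^ (j + 1) ≤ 2 ^ i := Nat.pow_le_pow_right (by norm_num) hcon
        rw [pow_succ] at this
        omega
      have : (2 : ℝ) ^ i ≤ 2 ^ j := pow_le_pow_right₀ (by norm_num) hij
      have h3 : 3 / (7 * 2 ^ j) ≤ (3 : ℝ) / (7 * 2 ^ i) := by
        apply div_le_div_of_nonneg_left (by norm_num) (by positivity)
        linarith
      linarith

/-- There is an infinite-length strategy `S` with
`disc_n(S) ≤ 2 - (12/7) / (n + 1)` for infinitely many `n` (namely all `n = 4·2^j - 1`); in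
particular for every `C` some `n ≥ 1` satisfies `disc_n(S) < 2 - 3/(2n) - C/n²`. -/
theorem result : ∃ S : ℕ → Finset ℝ, IsStrategy S ∧
    (∀ j : ℕ, discUpTo S (4 * 2 ^ j - 1) ≤ 2 - (12 / 7) / (((4 * 2 ^ j - 1 : ℕ) : ℝ) + 1)) ∧
    ∀ C : ℝ, ∃ n : ℕ, 1 ≤ n ∧ discUpTo S n < 2 - 3 / (2 * n) - C / n ^ 2 := by
  have key : ∀ j : ℕ, discUpTo S (4 * 2 ^ j - 1) ≤
      2 - (12 / 7) / (((4 * 2 ^ j - 1 : ℕ) : ℝ) + 1) := by
    intro j
    have hpj : 1 ≤ 2 ^ j := Nat.one_le_two_pow
    refine (discUpTo_le j).trans (le_of_eq ?_)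
    rw [Nat.cast_sub (by omega)]
    push_cast
    have : ((2 : ℝ) ^ j) ≠ 0 := by positivity
    field_simp
    ring
  refine ⟨S, S_strategy, key, ?_⟩
  intro C
  -- choose `j` large
  obtain ⟨j, hj⟩ : ∃ j : ℕ, 14 * |C| + 14 < 2 ^ j := by
    obtain ⟨j, hj⟩ := pow_unbounded_of_one_lt (14 * |C| + 14) (by norm_num : (1 : ℝ) < 2)
    exact ⟨j, hj⟩
  have hpj : 1 ≤ 2 ^ j := Nat.one_le_two_pow
  obtain ⟨n, hn⟩ : ∃ n, n = 4 * 2 ^ j - 1 := ⟨_, rfl⟩
  have hk := key j
  rw [← hn] at hk
  refine ⟨n, by omega, hk.trans_lt ?_⟩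
  have hnR : (n : ℝ) = 4 * 2 ^ j - 1 := by
    rw [hn, Nat.cast_sub (by omega)]
    push_cast
    ring
  have hC := le_abs_self C
  have hC0 := abs_nonneg C
  have hn1 : 14 * |C| + 14 < n := by
    rw [hnR]
    have : (1 : ℝ) ≤ 2 ^ j := one_le_pow₀ (by norm_num)
    linarith
  have hn0 : (0 : ℝ) < n := by linarith
  have e1 : 3 / (2 * (n : ℝ)) + C / (n : ℝ) ^ 2 = (3 * n + 2 * C) / (2 * n ^ 2) := by
    field_simp
  have e2 : (3 * n + 2 * C) / (2 * (n : ℝ) ^ 2) < (12 / 7) / ((n : ℝ) + 1) := by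
    rw [div_lt_div_iff₀ (by positivity) (by positivity)]
    nlinarith
  linarith

end Pool.Agent.Results.MP_32269d_co.SparseTimes
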